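import Pool.Agent.P8H3.KI.MainA
import Pool.Agent.P8H19.KI.Lim
import Pool.Agent.P8H7.KI.Glue
import Pool.Agent.P8H85.KI.Sumi

/-!
MP_2e3c73_gt, Q1: the limit of `p (Z ^ n) / n ^ 2` exists.

`Manifolds` (`Pool/Agent/P8H3/KI/Stm.lean`) is a class of closed connected oriented 4-manifolds, with
the Euler characteristic `χ`, the signature `σ` and the fundamental group, which contains `S⁴` and
`S¹ × S³` and is closed under connected sums and under surgery on loops (the numbers and groups change
in the well-known way); for the manifolds with fundamental group `Z ^ n` it is assumed that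
`χ - σ ≥ 2 - 2 n`, that is `b₂ ≥ σ`. For example all smooth manifolds, or all topological manifolds.
`pInv T n` is the least value of `χ - σ` for the manifolds with fundamental group `Z ^ n`.

Proof. Put `f (n) = p (Z ^ n) - 2 + 2 n`. If the pairs of points of an `n`-element set are covered by
blocks, then the connected sum of manifolds with the fundamental groups `Z ^ B`, one for each block
`B`, can be changed by surgery on loops into a manifold with fundamental group `Z ^ n`: one identifies
the generators which belong to the same point, and they commute since every pair of points is in a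
block. The bookkeeping shows that `f (n) ≤ ∑ f (|B|)`, the sum over the blocks; and `f` is
nondecreasing. For `n = k q`, `q` prime to `(k - 1)!`, one uses `q ^ 2` blocks of `k` points
(the transversal design given by the lines `i ↦ a + i b` modulo `q`) and `k` blocks of `q` points, so
`f (k q) ≤ q ^ 2 f (k) + k f (q)`. This gives `limsup f (n) / n ^ 2 ≤ f (k) / (k (k - 1))`, for all `k`.

The limit argument, the design and the covering argument are by helper19 and helper7, the connected
sums and surgeries by helper85 (packages of project KI), the rest by helper3.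
-/

set_option autoImplicit false

namespace Pool.Agent.Results.MP_2e3c73_gt.LimitExists

open Pool.Agent.P8H3.KI Filter Topology

/-- Let `T` be a class of closed connected oriented 4-manifolds as above. There is a number `c ≥ 0` such
that
(1) `p (Z ^ n) / n ^ 2` converges to `c`;
(2) `c` is the infimum of the numbers `(p (Z ^ k) - 2 + 2 k) / (k (k - 1))`, `k ≥ 2`;
(3) `χ - σ ≥ c n (n - 1) + 2 - 2 n` for every manifold with fundamental group `Z ^ n`, so every such
manifold gives an upper bound for `c`;
(4) if `p (Z ^ 8) ≤ 12` then `c ≤ 13 / 28`, and if `p (Z ^ 7) ≤ 2` then `c ≤ 1 / 3`. -/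
theorem result (T : Manifolds) : ∃ c : ℝ, 0 ≤ c ∧
    Tendsto (fun n : ℕ => (pInv T n : ℝ) / (n : ℝ) ^ 2) atTop (𝓝 c) ∧
    IsGLB {x : ℝ | ∃ k : ℕ, 2 ≤ k ∧ x = ((pInv T k : ℝ) - 2 + 2 * k) / (k * (k - 1))} c ∧
    (∀ (n : ℕ) (M : T.Obj), Nonempty (T.grp M ≃* Multiplicative (Fin n → ℤ)) →
      c * (n * (n - 1)) + 2 - 2 * n ≤ T.chi M - T.sig M) ∧
    (pInv T 8 ≤ 12 → c ≤ 13 / 28) ∧ (pInv T 7 ≤ 2 → c ≤ 1 / 3) := by
  have hS := Pool.Agent.P8H85.KI.sumi
  have hU := Pool.Agent.P8H85.KI.surg
  have hE := Pool.Agent.P8H7.KI.exi hS hU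
  obtain ⟨c, h0, h1, h2⟩ := mainA hE Pool.Agent.P8H85.KI.kill (Pool.Agent.P8H7.KI.glue hS hU)
    Pool.Agent.P8H19.KI.t_TD Pool.Agent.P8H19.KI.t_LIM T
  refine ⟨c, h0, h1, h2, ?_, ?_, ?_⟩
  · intro n M hM
    have h3 : (pInv T n : ℝ) ≤ T.chi M - T.sig M := by exact_mod_cast pInv_le hM
    have h5 := cost_nonneg hE T n
    unfold cost at h5
    rcases Nat.lt_or_ge n 2 with hn | hn
    · have h4 : (n : ℝ) * ((n : ℝ) - 1) = 0 := by
        interval_cases n <;> norm_num
      rw [h4, mul_zero]
      linarith
    · have h4 := h2.1 ⟨n, hn, rfl⟩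
      have hn' : (2 : ℝ) ≤ n := by exact_mod_cast hn
      have hpos : (0 : ℝ) < n * (n - 1) := by nlinarith
      rw [le_div_iff₀ hpos] at h4
      linarith
  · intro h8
    have h8' : (pInv T 8 : ℝ) ≤ 12 := by exact_mod_cast h8
    have h4 := h2.1 ⟨8, by norm_num, rfl⟩
    rw [le_div_iff₀ (by norm_num)] at h4
    push_cast at h4
    linarith
  · intro h7
    have h7' : (pInv T 7 : ℝ) ≤ 2 := by exact_mod_cast h7
    have h4 := h2.1 ⟨7, by norm_num, rfl⟩
    rw [le_div_iff₀ (by norm_num)] at h4
    push_cast at h4
    linarith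

end Pool.Agent.Results.MP_2e3c73_gt.LimitExists
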