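import Pool.Agent.P8H3.KI.MainB3
import Pool.Agent.P8H19.KI.Pos
import Pool.Agent.P8H59.KI.Skew
import Pool.Agent.P8H59.KI.Bu2

/-!
MP_2e3c73_gt, Q1: a linear lower bound for `p (Z ^ n)`, and its precision.

`CupForm V H` (`Pool/Agent/P8H3/KI/DefsB.lean`): `V`, `H` are the first and the second real cohomology
group of a closed oriented 4-manifold, with the cup product `V × V → H` and the intersection form on
`H`. `Split C P N`: `H = P ⊕ N`, the form is positive definite on `P` and negative definite on `N`;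
`euler V H = 2 - 2 b₁ + b₂`, `signature P N = dim P - dim N`.

Let `M` be a closed oriented 4-manifold with `b₁ (M) > 2 ^ s` such that `x ∪ y ≠ 0` in `H² (M; ℝ)`
for all linearly independent `x, y ∈ H¹ (M; ℝ)`; for example, let `π₁ (M)` be free abelian. Then
`b⁺, b⁻ ≥ 2 ^ (s + 1) - 1` and `χ - σ ≥ 2 ^ (s + 2) - 2 b₁`. So `p (Z ^ n) ≥ 2 ^ (s + 2) - 2 n` for
`2 ^ s < n ≤ 2 ^ (s + 1)`; this is an equality for `2 ≤ n ≤ 7` (known values), and for `n = 2 ^ s + 1` it
says `p (Z ^ n) ≥ 2 n - 4`.

Proof. The products `x ∪ y` are isotropic, so a positive definite subspace of codimension `m` would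
give `m` skew forms on `H¹` without common zero `(x, y)`, `x, y` independent. This is impossible for
`m ≤ 2 ^ (s + 1) - 2`: restrict to a subspace of dimension `2 ^ s + 1`, add the scalar product of `x`
and `y` and apply a Borsuk-Ulam theorem on `S^p × S^q`, `p = 2 ^ s - 1`, `q = 2 ^ s`, to `p + q`
functions which are odd in both variables; the obstruction is the binomial coefficient
`C(p + q, p)` modulo two.

Conversely, for each `n ≥ 2` there is an algebraic cohomology ring like that of a 4-manifold with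
fundamental group `Z ^ n` (with an integral 4-form on `Z ^ n`, and `Λ² H¹ → H²` injective) with
`χ - σ = 2 n - 4`. So for `n = 2 ^ s + 1` the bound is optimal among all bounds which only use the real
cohomology ring, and for all `n` such bounds are at most linear. The 4-form is
`- ∑ B ^ ((i + j) ^ 2) e_i ∧ e_k ∧ e_l ∧ e_j`, `i < k < l < j`, `i + j = k + l`, `B = 4 n + 1`; its form on
`Λ²` is positive definite on the space of the `a` with `∑_{i + j = s} a_ij = 0` for all `s`.

The idea of the 4-form is due to helper85, the positivity was proved by helper19, the Borsuk-Ulam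
theorem and its corollary on skew forms by helper59 (with the chains of the library file
`Helper133/BUProd`), the rest by helper3.
-/

set_option autoImplicit false

namespace Pool.Agent.Results.MP_2e3c73_gt.LinearLowerBound

open Pool.Agent.P8H3.KI

/-- (1) Let `C` be the first and second real cohomology of a closed oriented 4-manifold (`CupForm`,
`Split`), with `b₁ = dim V > 2 ^ s` and `x ∪ y ≠ 0` for all linearly independent `x, y ∈ V`. Then
`b⁺, b⁻ ≥ 2 ^ (s + 1) - 1` and `χ - σ ≥ 2 ^ (s + 2) - 2 b₁`.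
(2) For each `n ≥ 2` there are such data `C` with `V = ℝ ^ n`, `χ - σ = 2 n - 4`, an injective map
`j : Λ² V → H` such that `x ∪ y = j (x ∧ y)`, and an alternating 4-form `ω` with integral
coefficients such that `(x ∪ y) · (z ∪ w) = ω (x, y, z, w)`. -/
theorem result :
    (∀ (V H : Type) [AddCommGroup V] [Module ℝ V] [FiniteDimensional ℝ V] [AddCommGroup H]
      [Module ℝ H] [FiniteDimensional ℝ H] (C : CupForm V H) (P N : Submodule ℝ H) (s : ℕ),
      Split C P N → 2 ^ s < Module.finrank ℝ V →
      (∀ x y, LinearIndependent ℝ ![x, y] → C.cup x y ≠ 0) →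
      2 ^ (s + 1) - 1 ≤ Module.finrank ℝ P ∧ 2 ^ (s + 1) - 1 ≤ Module.finrank ℝ N ∧
        2 ^ (s + 2) - 2 * (Module.finrank ℝ V : ℤ) ≤ euler V H - signature P N) ∧
    ∀ n : ℕ, 2 ≤ n → ∃ (H : Type) (_ : AddCommGroup H) (_ : Module ℝ H)
      (_ : FiniteDimensional ℝ H) (C : CupForm (Fin n → ℝ) H) (P N : Submodule ℝ H)
      (j : (Pairs n → ℝ) →ₗ[ℝ] H) (ω : (Fin n → ℝ) [⋀^Fin 4]→ₗ[ℝ] ℝ),
      Split C P N ∧ Function.Injective j ∧
        (∀ x y, C.cup x y = j fun z => x z.1.1 * y z.1.2 - x z.1.2 * y z.1.1) ∧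
        (∀ x y z w, C.form (C.cup x y) (C.cup z w) = ω ![x, y, z, w]) ∧
        (∀ v : Fin 4 → Fin n, ∃ m : ℤ, ω (fun a => Pi.single (v a) 1) = m) ∧
        euler (Fin n → ℝ) H - signature P N = 2 * n - 4 :=
  ⟨fun _ _ _ _ _ _ _ _ C P N s hPN hs hc =>
      lowerBoth (Pool.Agent.P8H59.KI.skew Pool.Agent.P8H59.KI.bu2) C P N hPN s hs hc,
    fun n hn => upper Pool.Agent.P8H19.KI.t_POS n hn⟩

end Pool.Agent.Results.MP_2e3c73_gt.LinearLowerBound
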